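import Pool.Agent.helper60.EPT.SpecS

/-!
# Row sr:DIN: the start formula
-/

set_option autoImplicit false

namespace Pool.Agent.EPT

open D

theorem DIN_ne : (one : D) ≠ nil := by
  unfold one
  intro h
  cases h

theorem DIN_lit_nl (v : D → Bool) (l : D) : LitT v (nl l) ↔ LitT (fun x => v (cons one x)) l := by
  unfold LitT nl
  simp only [snd_cons, fst_cons, tv_ne_nil]

theorem DIN_yp (v : D → Bool) : LitT v yp ↔ v nil = true := by
  unfold LitT yp
  simp only [snd_cons, fst_cons]
  constructor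
  · intro h
    exact h.2 DIN_ne
  · intro h
    exact ⟨fun _ => DIN_ne, fun _ => h⟩

theorem DIN_ym (v : D → Bool) : LitT v ym ↔ ¬ v nil = true := by
  unfold LitT ym
  simp only [snd_cons, fst_cons]
  constructor
  · intro h h1
    exact h.1 h1 rfl
  · intro h
    exact ⟨fun h1 => absurd h1 h, fun h1 => absurd rfl h1⟩

theorem DIN_wp (v : D → Bool) : LitT v wp ↔ v one = true := by
  unfold LitT wp
  simp only [snd_cons, fst_cons]
  constructor
  · intro h
    exact h.2 DIN_ne
  · intro h
    exact ⟨fun _ => DIN_ne, fun _ => h⟩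

theorem DIN_wm (v : D → Bool) : LitT v wm ↔ ¬ v one = true := by
  unfold LitT wm
  simp only [snd_cons, fst_cons]
  constructor
  · intro h h1
    exact h.1 h1 rfl
  · intro h
    exact ⟨fun h1 => absurd h1 h, fun h1 => absurd rfl h1⟩

theorem DIN_mem_cl0 (hDDS : DDS_stmt) (c x : D) :
    x ∈ cl0 c ↔ x = nl c.fst ∨ x = nl c.snd.fst ∨ x = nl c.snd.snd := by
  unfold cl0
  rw [(hDDS _).2]
  simp only [List.mem_cons, List.not_mem_nil, or_false]

theorem DIN_nodup (hDDS : DDS_stmt) (c : D) : (cl0 c).Nodup := (hDDS _).1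

theorem DIN_len (hDDS : DDS_stmt) (c : D) : (cl0 c).length = 1 ∨ (cl0 c).length = 2 ∨ (cl0 c).length = 3 := by
  have h1 : (cl0 c).length ≤ 3 := by
    have h2 : cl0 c ⊆ [nl c.fst, nl c.snd.fst, nl c.snd.snd] := by
      intro x hx
      rw [DIN_mem_cl0 hDDS] at hx
      simp only [List.mem_cons, List.not_mem_nil, or_false]
      exact hx
    have h3 := ((DIN_nodup hDDS c).subperm h2).length_le
    simpa using h3
  have h2 : (cl0 c).length ≠ 0 := by
    intro h
    have h3 : nl c.fst ∈ cl0 c := (DIN_mem_cl0 hDDS c _).2 (Or.inl rfl)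
    rw [List.length_eq_zero_iff.1 h] at h3
    exact absurd h3 List.not_mem_nil
  omega

/-- elements of `cl0 c` have the form `cons _ (cons one _)` -/
theorem DIN_shape (hDDS : DDS_stmt) (c x : D) (hx : x ∈ cl0 c) : x.snd ≠ nil ∧ x.snd ≠ one := by
  rw [DIN_mem_cl0 hDDS] at hx
  have h : ∀ l : D, (nl l).snd ≠ nil ∧ (nl l).snd ≠ one := by
    intro l
    unfold nl
    simp only [snd_cons]
    constructor
    · intro h
      cases h
    · intro h
      unfold one at h
      injection h with h1 h2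
      exact absurd h1 (by intro h3; cases h3)
  rcases hx with rfl | rfl | rfl
  · exact h _
  · exact h _
  · exact h _

theorem DIN_notMem (hDDS : DDS_stmt) (c : D) : yp ∉ cl0 c ∧ ym ∉ cl0 c ∧ wp ∉ cl0 c ∧ wm ∉ cl0 c := by
  refine ⟨fun h => ?_, fun h => ?_, fun h => ?_, fun h => ?_⟩
  · exact (DIN_shape hDDS c _ h).1 rfl
  · exact (DIN_shape hDDS c _ h).1 rfl
  · exact (DIN_shape hDDS c _ h).2 rfl
  · exact (DIN_shape hDDS c _ h).2 rfl

theorem DIN_yw : yp ≠ wp ∧ yp ≠ wm ∧ ym ≠ wp ∧ ym ≠ wm := by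
  have h : ∀ a b : D, cons a nil ≠ cons b one := by
    intro a b h
    injection h with h1 h2
    exact DIN_ne h2.symm
  exact ⟨h _ _, h _ _, h _ _, h _ _⟩

/-- the clauses of `st0 c` -/
theorem DIN_st0 (hDDS : DDS_stmt) (c d : D) (hd : d ∈ st0 c) :
    d.toList.Nodup ∧ d.toList.length = 3 ∧ ∀ l ∈ d.toList, l = yp ∨ l = ym ∨ l = wp ∨ l = wm ∨ l ∈ cl0 c := by
  obtain ⟨n1, n2, n3, n4⟩ := DIN_notMem hDDS c
  obtain ⟨e1, e2, e3, e4⟩ := DIN_yw
  have hn := DIN_nodup hDDS c
  unfold st0 at hd
  rcases DIN_len hDDS c with h | h | h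
  · rw [if_neg (by omega), if_neg (by omega)] at hd
    have key : ∀ y w : D, y ≠ w → y ∉ cl0 c → w ∉ cl0 c → (y = yp ∨ y = ym) → (w = wp ∨ w = wm) → d = ofList (y :: w :: cl0 c) →
        d.toList.Nodup ∧ d.toList.length = 3 ∧ ∀ l ∈ d.toList, l = yp ∨ l = ym ∨ l = wp ∨ l = wm ∨ l ∈ cl0 c := by
      intro y w h1 h2 h3 h4 h5 h6
      subst h6
      rw [toList_ofList]
      refine ⟨?_, ?_, ?_⟩
      · refine List.nodup_cons.2 ⟨?_, List.nodup_cons.2 ⟨h3, hn⟩⟩
        intro h7
        rcases List.mem_cons.1 h7 with h8 | h8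
        · exact h1 h8
        · exact h2 h8
      · simp only [List.length_cons]
        omega
      · intro l hl
        rcases List.mem_cons.1 hl with h7 | h7
        · rw [h7]
          tauto
        · rcases List.mem_cons.1 h7 with h8 | h8
          · rw [h8]
            tauto
          · tauto
    simp only [List.mem_cons, List.not_mem_nil, or_false] at hd
    rcases hd with hd | hd | hd | hd
    · exact key yp wp e1 n1 n3 (Or.inl rfl) (Or.inl rfl) hd
    · exact key yp wm e2 n1 n4 (Or.inl rfl) (Or.inr rfl) hd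
    · exact key ym wp e3 n2 n3 (Or.inr rfl) (Or.inl rfl) hd
    · exact key ym wm e4 n2 n4 (Or.inr rfl) (Or.inr rfl) hd
  · rw [if_neg (by omega), if_pos h] at hd
    have key : ∀ y : D, y ∉ cl0 c → (y = yp ∨ y = ym) → d = ofList (y :: cl0 c) →
        d.toList.Nodup ∧ d.toList.length = 3 ∧ ∀ l ∈ d.toList, l = yp ∨ l = ym ∨ l = wp ∨ l = wm ∨ l ∈ cl0 c := by
      intro y h2 h4 h6
      subst h6
      rw [toList_ofList]
      refine ⟨List.nodup_cons.2 ⟨h2, hn⟩, ?_, ?_⟩
      · simp only [List.length_cons]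
        omega
      · intro l hl
        rcases List.mem_cons.1 hl with h7 | h7
        · rw [h7]
          tauto
        · tauto
    simp only [List.mem_cons, List.not_mem_nil, or_false] at hd
    rcases hd with hd | hd
    · exact key yp n1 (Or.inl rfl) hd
    · exact key ym n2 (Or.inr rfl) hd
  · rw [if_pos h] at hd
    simp only [List.mem_cons, List.not_mem_nil, or_false] at hd
    subst hd
    rw [toList_ofList]
    exact ⟨hn, h, fun l hl => Or.inr (Or.inr (Or.inr (Or.inr hl)))⟩

/-- satisfying `st0 c` -/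
theorem DIN_sat (hDDS : DDS_stmt) (v : D → Bool) (c : D) :
    (∀ d ∈ st0 c, ∃ l ∈ d.toList, LitT v l) ↔ ∃ l ∈ cl0 c, LitT v l := by
  unfold st0
  rcases DIN_len hDDS c with h | h | h
  · rw [if_neg (by omega), if_neg (by omega)]
    simp only [List.mem_cons, List.not_mem_nil, or_false, forall_eq_or_imp, forall_eq, toList_ofList, exists_eq_or_imp,
      DIN_yp, DIN_ym, DIN_wp, DIN_wm]
    tauto
  · rw [if_neg (by omega), if_pos h]
    simp only [List.mem_cons, List.not_mem_nil, or_false, forall_eq_or_imp, forall_eq, toList_ofList, exists_eq_or_imp,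
      DIN_yp, DIN_ym]
    tauto
  · rw [if_pos h]
    simp only [List.mem_cons, List.not_mem_nil, or_false, forall_eq, toList_ofList]

theorem DIN_sat_cl0 (hDDS : DDS_stmt) (v : D → Bool) (c : D) :
    (∃ l ∈ cl0 c, LitT v l) ↔ LitT (fun x => v (cons one x)) c.fst ∨ LitT (fun x => v (cons one x)) c.snd.fst ∨
      LitT (fun x => v (cons one x)) c.snd.snd := by
  rw [← DIN_lit_nl, ← DIN_lit_nl, ← DIN_lit_nl]
  constructor
  · rintro ⟨l, hl, h⟩
    rw [DIN_mem_cl0 hDDS] at hl
    rcases hl with rfl | rfl | rfl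
    · exact Or.inl h
    · exact Or.inr (Or.inl h)
    · exact Or.inr (Or.inr h)
  · rintro (h | h | h)
    · exact ⟨_, (DIN_mem_cl0 hDDS c _).2 (Or.inl rfl), h⟩
    · exact ⟨_, (DIN_mem_cl0 hDDS c _).2 (Or.inr (Or.inl rfl)), h⟩
    · exact ⟨_, (DIN_mem_cl0 hDDS c _).2 (Or.inr (Or.inr rfl)), h⟩

/-- the clauses before the reduction -/
def DIN_L (z : D) : D := ofList (z.toList.flatMap st0)

theorem DIN_mem_L (z d : D) : d ∈ (DIN_L z).toList ↔ ∃ c ∈ z.toList, d ∈ st0 c := by
  unfold DIN_L
  rw [toList_ofList, List.mem_flatMap]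

theorem DIN_satF (z : D) (t : D → Prop) : SatF t (fs (DIN_L z)) ↔ ∀ c ∈ z.toList, ∀ d ∈ st0 c, ∃ l ∈ d.toList, t l := by
  unfold SatF fs
  constructor
  · intro h c hc d hd
    obtain ⟨l, hl, h1⟩ := h (cs d) (List.mem_toFinset.2 (List.mem_map_of_mem ((DIN_mem_L z d).2 ⟨c, hc, hd⟩)))
    exact ⟨l, List.mem_toFinset.1 hl, h1⟩
  · intro h C hC
    obtain ⟨d, hd, rfl⟩ := List.mem_map.1 (List.mem_toFinset.1 hC)
    obtain ⟨c, hc, hd'⟩ := (DIN_mem_L z d).1 hd
    obtain ⟨l, hl, h1⟩ := h c hc d hd'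
    exact ⟨l, List.mem_toFinset.2 hl, h1⟩

theorem DIN_len3 (l : List D) : (l.flatMap fun c => [c.fst.snd, c.snd.fst.snd, c.snd.snd.snd]).length = 3 * l.length := by
  induction l with
  | nil => rfl
  | cons a l ih =>
    rw [List.flatMap_cons, List.length_append, ih, List.length_cons]
    simp only [List.length_cons, List.length_nil]
    omega

theorem DIN_var_size (z x : D) (hx : x ∈ z.toList.flatMap fun c => [c.fst.snd, c.snd.fst.snd, c.snd.snd.snd]) :
    x.size ≤ z.size := by
  obtain ⟨c, hc, hx⟩ := List.mem_flatMap.1 hx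
  have h1 := size_mem z c hc
  simp only [List.mem_cons, List.not_mem_nil, or_false] at hx
  rcases hx with rfl | rfl | rfl
  · have h2 := size_snd c.fst
    have h3 := size_fst c
    omega
  · have h2 := size_snd c.snd.fst
    have h3 := size_fst c.snd
    have h4 := size_snd c
    omega
  · have h2 := size_snd c.snd.snd
    have h3 := size_snd c.snd
    have h4 := size_snd c
    omega

theorem DIN_nl_mem (z l : D) (hl : l.snd ∈ z.toList.flatMap fun c => [c.fst.snd, c.snd.fst.snd, c.snd.snd.snd]) :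
    nl l ∈ lit z := by
  unfold lit nl tv
  by_cases h : l.fst = nil
  · rw [if_neg (fun h1 => h1 h)]
    refine Finset.mem_union_right _ (Finset.mem_image.2 ⟨l.snd, List.mem_toFinset.2 hl, rfl⟩)
  · rw [if_pos h]
    refine Finset.mem_union_left _ (Finset.mem_union_right _ (Finset.mem_image.2 ⟨l.snd, List.mem_toFinset.2 hl, rfl⟩))

theorem DIN (hDAB : DAB_stmt) (hDDS : DDS_stmt) (hSSE : SSE_stmt) : DIN_stmt := by
  intro z
  have hL : ∀ c ∈ (DIN_L z).toList, c.toList.Nodup := by
    intro d hd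
    obtain ⟨c, hc, hd'⟩ := (DIN_mem_L z d).1 hd
    exact (DIN_st0 hDDS c d hd').1
  obtain ⟨h1, h2⟩ := hDAB.1 (DIN_L z) hL
  have hF0 : F0 z = rdD (DIN_L z) := rfl
  -- the clauses
  have hcl : ∀ C ∈ fs (F0 z), C.card = 3 ∧ C ⊆ lit z := by
    intro C hC
    rw [hF0, h2] at hC
    have hC1 : C ∈ fs (DIN_L z) := (Finset.mem_filter.1 hC).1
    obtain ⟨d, hd, rfl⟩ := List.mem_map.1 (List.mem_toFinset.1 hC1)
    obtain ⟨c, hc, hd'⟩ := (DIN_mem_L z d).1 hd
    obtain ⟨h3, h4, h5⟩ := DIN_st0 hDDS c d hd'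
    refine ⟨?_, ?_⟩
    · unfold cs
      rw [List.toFinset_card_of_nodup h3, h4]
    · intro l hl
      have hl1 := h5 l (List.mem_toFinset.1 hl)
      rcases hl1 with rfl | rfl | rfl | rfl | hl1
      · unfold lit
        simp
      · unfold lit
        simp
      · unfold lit
        simp
      · unfold lit
        simp
      · rw [DIN_mem_cl0 hDDS] at hl1
        rcases hl1 with rfl | rfl | rfl
        · exact DIN_nl_mem z _ (List.mem_flatMap.2 ⟨c, hc, by simp⟩)
        · exact DIN_nl_mem z _ (List.mem_flatMap.2 ⟨c, hc, by simp⟩)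
        · exact DIN_nl_mem z _ (List.mem_flatMap.2 ⟨c, hc, by simp⟩)
  refine ⟨?_, ?_, ?_, ?_, ?_, ?_⟩
  · rw [hF0]
    exact h1
  · intro a ha
    refine ⟨?_, ?_, ?_, ?_⟩
    · intro C hC
      rw [(hcl C hC).1]
      exact ⟨by norm_num, le_rfl⟩
    · intro C hC
      exact (hcl C hC).2
    · intro C hC C' hC' hsub
      refine Finset.eq_of_subset_of_card_le hsub ?_
      rw [(hcl C hC).1, (hcl C' hC').1]
    · intro l
      have h3 : deg (fs (F0 z)) 2 {l} = 0 := by
        unfold deg
        rw [Finset.card_eq_zero, Finset.filter_eq_empty_iff]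
        intro C hC h4
        have h5 := (hcl C hC).1
        omega
      rw [h3]
      omega
  · rw [hF0, h2]
    have key : ∀ v : D → Bool, SatF (LitT v) (red (fs (DIN_L z))) ↔
        ∀ c ∈ z.toList, LitT (fun x => v (cons one x)) c.fst ∨ LitT (fun x => v (cons one x)) c.snd.fst ∨
          LitT (fun x => v (cons one x)) c.snd.snd := by
      intro v
      rw [(hSSE D (LitT v) (fs (DIN_L z))).1, DIN_satF]
      refine forall_congr' fun c => forall_congr' fun hc => ?_
      rw [DIN_sat hDDS, DIN_sat_cl0 hDDS]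
    constructor
    · rintro ⟨v, hv⟩
      refine ⟨fun y => v y.snd, (key _).2 ?_⟩
      intro c hc
      exact hv c hc
    · rintro ⟨v, hv⟩
      exact ⟨fun x => v (cons one x), (key v).1 hv⟩
  · unfold lit
    refine (Finset.card_union_le _ _).trans ?_
    have h3 := Finset.card_union_le ({yp, ym, wp, wm} : Finset D)
      ((z.toList.flatMap fun c => [c.fst.snd, c.snd.fst.snd, c.snd.snd.snd]).toFinset.image fun x => cons one (cons one x))
    have h4 : ({yp, ym, wp, wm} : Finset D).card ≤ 4 := Finset.card_le_four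
    have h5 := Finset.card_image_le (s := (z.toList.flatMap fun c => [c.fst.snd, c.snd.fst.snd, c.snd.snd.snd]).toFinset)
      (f := fun x => cons one (cons one x))
    have h6 := Finset.card_image_le (s := (z.toList.flatMap fun c => [c.fst.snd, c.snd.fst.snd, c.snd.snd.snd]).toFinset)
      (f := fun x => cons nil (cons one x))
    unfold nvar
    omega
  · unfold nvar
    refine (List.toFinset_card_le _).trans ?_
    rw [DIN_len3]
  · intro l hl
    have ho : (one : D).size = 3 := rfl
    have hz := size_pos z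
    unfold lit at hl
    rcases Finset.mem_union.1 hl with hl | hl
    · rcases Finset.mem_union.1 hl with hl | hl
      · simp only [Finset.mem_insert, Finset.mem_singleton] at hl
        have e1 : yp.size = 5 := rfl
        have e2 : ym.size = 3 := rfl
        have e3 : wp.size = 7 := rfl
        have e4 : wm.size = 5 := rfl
        rcases hl with rfl | rfl | rfl | rfl <;> omega
      · obtain ⟨x, hx, rfl⟩ := Finset.mem_image.1 hl
        have h3 := DIN_var_size z x (List.mem_toFinset.1 hx)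
        simp only [size_cons]
        omega
    · obtain ⟨x, hx, rfl⟩ := Finset.mem_image.1 hl
      have h3 := DIN_var_size z x (List.mem_toFinset.1 hx)
      simp only [size_cons, size_nil]
      omega

end Pool.Agent.EPT
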