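import Pool.Agent.helper60.EPT.Spec

/-!
# Row eth:TRC (MP_2b48c2_lc): recursion on trees in polynomial time
-/

set_option autoImplicit false

namespace Pool.Agent.EPT

open D

/-! ## Polynomial bounds -/

def TRC_pb (T : D → ℕ) : Prop := ∃ c : ℕ, ∀ x : D, T x ≤ (x.size + c) ^ c

theorem TRC_pb_const (d : ℕ) : TRC_pb fun _ => d := by
  refine ⟨d, fun x => ?_⟩
  rcases Nat.eq_zero_or_pos d with rfl | hd
  · exact Nat.zero_le _
  · calc d ≤ d ^ d := Nat.le_self_pow hd.ne' d
      _ ≤ (x.size + d) ^ d := Nat.pow_le_pow_left (Nat.le_add_left _ _) d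

theorem TRC_pb_add {T T' : D → ℕ} (h : TRC_pb T) (h' : TRC_pb T') : TRC_pb fun x => T x + T' x := by
  obtain ⟨c, hc⟩ := h
  obtain ⟨c', hc'⟩ := h'
  refine ⟨c + c' + 2, fun x => ?_⟩
  have hN : 2 ≤ x.size + (c + c' + 2) := by omega
  have h1 : T x ≤ (x.size + (c + c' + 2)) ^ (c + c') :=
    (hc x).trans ((Nat.pow_le_pow_left (by omega) c).trans (Nat.pow_le_pow_right (by omega) (by omega)))
  have h2 : T' x ≤ (x.size + (c + c' + 2)) ^ (c + c') :=
    (hc' x).trans ((Nat.pow_le_pow_left (by omega) c').trans (Nat.pow_le_pow_right (by omega) (by omega)))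
  calc T x + T' x ≤ 2 * (x.size + (c + c' + 2)) ^ (c + c') := by omega
    _ ≤ (x.size + (c + c' + 2)) * (x.size + (c + c' + 2)) ^ (c + c') := Nat.mul_le_mul_right _ hN
    _ = (x.size + (c + c' + 2)) ^ (c + c' + 1) := by rw [pow_succ]; ring
    _ ≤ _ := Nat.pow_le_pow_right (by omega) (by omega)

theorem TRC_pb_mul {T T' : D → ℕ} (h : TRC_pb T) (h' : TRC_pb T') : TRC_pb fun x => T x * T' x := by
  obtain ⟨c, hc⟩ := h
  obtain ⟨c', hc'⟩ := h'
  refine ⟨c + c' + 1, fun x => ?_⟩
  have h1 : T x ≤ (x.size + (c + c' + 1)) ^ c := (hc x).trans (Nat.pow_le_pow_left (by omega) c)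
  have h2 : T' x ≤ (x.size + (c + c' + 1)) ^ c' := (hc' x).trans (Nat.pow_le_pow_left (by omega) c')
  calc T x * T' x ≤ (x.size + (c + c' + 1)) ^ c * (x.size + (c + c' + 1)) ^ c' := Nat.mul_le_mul h1 h2
    _ = (x.size + (c + c' + 1)) ^ (c + c') := by rw [pow_add]
    _ ≤ _ := Nat.pow_le_pow_right (by omega) (by omega)

theorem TRC_pb_pow {T : D → ℕ} (h : TRC_pb T) (d : ℕ) : TRC_pb fun x => T x ^ d := by
  obtain ⟨c, hc⟩ := h
  refine ⟨c + c * d + 1, fun x => ?_⟩
  have h1 : T x ≤ (x.size + (c + c * d + 1)) ^ c := (hc x).trans (Nat.pow_le_pow_left (by omega) c)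
  calc T x ^ d ≤ ((x.size + (c + c * d + 1)) ^ c) ^ d := Nat.pow_le_pow_left h1 d
    _ = (x.size + (c + c * d + 1)) ^ (c * d) := by rw [pow_mul]
    _ ≤ _ := Nat.pow_le_pow_right (by omega) (by omega)

/-! ## Runs -/

/-- `n` steps of `f` from `s` to `s'`, the loop condition holds on the way, sizes at most `B` -/
def TRC_R (f : D → D) (B : ℕ) (s s' : D) (n : ℕ) : Prop :=
  f^[n] s = s' ∧ (∀ i, i < n → (f^[i] s).fst ≠ nil) ∧ ∀ i, i ≤ n → (f^[i] s).size ≤ B

theorem TRC_trans {f : D → D} {B : ℕ} {s s' s'' : D} {n m : ℕ} (h : TRC_R f B s s' n) (h' : TRC_R f B s' s'' m) :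
    TRC_R f B s s'' (n + m) := by
  obtain ⟨h1, h2, h3⟩ := h
  obtain ⟨k1, k2, k3⟩ := h'
  have e : ∀ j, f^[n + j] s = f^[j] s' := by
    intro j
    rw [add_comm, Function.iterate_add_apply, h1]
  refine ⟨by rw [e, k1], fun i hi => ?_, fun i hi => ?_⟩
  · by_cases h : i < n
    · exact h2 i h
    · obtain ⟨j, rfl⟩ := Nat.exists_eq_add_of_le (Nat.le_of_not_lt h)
      rw [e]
      exact k2 j (by omega)
  · by_cases h : i ≤ n
    · exact h3 i h
    · obtain ⟨j, rfl⟩ := Nat.exists_eq_add_of_le (Nat.le_of_not_le h)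
      rw [e]
      exact k3 j (by omega)

theorem TRC_one {f : D → D} {B : ℕ} {s s' : D} (h : f s = s') (h0 : s.fst ≠ nil) (h1 : s.size ≤ B) (h2 : s'.size ≤ B) :
    TRC_R f B s s' 1 := by
  refine ⟨h, fun i hi => ?_, fun i hi => ?_⟩
  · have : i = 0 := by omega
    subst this
    exact h0
  · rcases Nat.lt_or_ge i 1 with h3 | h3
    · have : i = 0 := by omega
      subst this
      exact h1
    · have : i = 1 := by omega
      subst this
      rw [Function.iterate_one, h]
      exact h2

/-! ## The step -/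

def TRC_step (a h : D → D) (s : D) : D :=
  if s.fst.fst.fst = nil then
    (if s.fst.fst.snd = nil then
      cons s.fst.snd (cons (cons (a s.snd.snd) s.snd.fst) s.snd.snd)
    else
      cons (cons (cons nil s.fst.fst.snd.fst) (cons (cons nil s.fst.fst.snd.snd) (cons (cons one s.fst.fst.snd) s.fst.snd)))
        s.snd)
  else
    cons s.fst.snd (cons (cons (h (cons (cons s.snd.fst.snd.fst s.snd.fst.fst) (cons s.fst.fst.snd s.snd.snd)))
      s.snd.fst.snd.snd) s.snd.snd)

theorem TRC_stepFP (hC : Cal) (a h : D → D) (ha : FP a) (hh : FP h) : FP (TRC_step a h) := by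
  have e0 := hC.id
  have e1 := hC.fst _ e0
  have e2 := hC.snd _ e0
  have e11 := hC.fst _ e1
  have e12 := hC.snd _ e1
  have e111 := hC.fst _ e11
  have e112 := hC.snd _ e11
  have e1121 := hC.fst _ e112
  have e1122 := hC.snd _ e112
  have e21 := hC.fst _ e2
  have e22 := hC.snd _ e2
  have e211 := hC.fst _ e21
  have e212 := hC.snd _ e21
  have e2121 := hC.fst _ e212
  have e2122 := hC.snd _ e212
  have n := hC.const nil
  have o := hC.const one
  have A := hC.cons _ _ e12 (hC.cons _ _ (hC.cons _ _ (hC.comp _ _ ha e22) e21) e22)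
  have B := hC.cons _ _ (hC.cons _ _ (hC.cons _ _ n e1121) (hC.cons _ _ (hC.cons _ _ n e1122)
    (hC.cons _ _ (hC.cons _ _ o e112) e12))) e2
  have E := hC.cons _ _ e12 (hC.cons _ _ (hC.cons _ _ (hC.comp _ _ hh (hC.cons _ _ (hC.cons _ _ e2121 e211)
    (hC.cons _ _ e112 e22))) e2122) e22)
  exact hC.cond _ _ _ e111 E (hC.cond _ _ _ e112 B A)

def TRC_N : D → ℕ
  | nil => 1
  | cons l r => TRC_N l + TRC_N r + 2

theorem TRC_N_le (t : D) : TRC_N t ≤ 2 * t.size := by
  induction t with
  | nil => simp [TRC_N]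
  | cons l r ihl ihr => simp [TRC_N]; omega

theorem TRC_run (a h : D → D) (e : D) (T K P B : ℕ) (hK : ∀ t : D, t.size ≤ T → (rc a h e t).size ≤ K)
    (hP : T + 8 + K ≤ P) (t : D) : ∀ w v : D, t.size ≤ T → w.size + v.size + e.size + P * t.size ≤ B →
    TRC_R (TRC_step a h) B (cons (cons (cons nil t) w) (cons v e)) (cons w (cons (cons (rc a h e t) v) e)) (TRC_N t) := by
  induction t with
  | nil =>
    intro w v hT hB
    have h1 := hK nil hT
    have h2 : rc a h e nil = a e := rfl
    rw [h2] at h1 ⊢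
    simp only [size_nil, mul_one] at hB
    refine TRC_one ?_ ?_ ?_ ?_
    · simp [TRC_step]
    · simp
    · simp only [size_cons, size_nil]
      omega
    · simp only [size_cons]
      omega
  | cons l r ihl ihr =>
    intro w v hT hB
    have h1 := hK (cons l r) hT
    simp only [size_cons] at hT hB
    have hl := hK l (by omega)
    have hr := hK r (by omega)
    have pl := size_pos l
    have pr := size_pos r
    have q1 : P * (l.size + r.size + 1) = P * l.size + P * r.size + P := by ring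
    have q2 : P ≤ P * l.size := Nat.le_mul_of_pos_right _ pl
    have q3 : P ≤ P * r.size := Nat.le_mul_of_pos_right _ pr
    have s1 : TRC_R (TRC_step a h) B (cons (cons (cons nil (cons l r)) w) (cons v e))
        (cons (cons (cons nil l) (cons (cons nil r) (cons (cons one (cons l r)) w))) (cons v e)) 1 := by
      refine TRC_one ?_ ?_ ?_ ?_
      · simp [TRC_step]
      · simp
      · simp only [size_cons, size_nil]
        omega
      · simp only [size_cons, size_nil, one]
        omega
    have s2 := ihl (cons (cons nil r) (cons (cons one (cons l r)) w)) v (by omega) (by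
      simp only [size_cons, size_nil, one]
      omega)
    have s3 := ihr (cons (cons one (cons l r)) w) (cons (rc a h e l) v) (by omega) (by
      simp only [size_cons, size_nil, one]
      omega)
    have s4 : TRC_R (TRC_step a h) B (cons (cons (cons one (cons l r)) w) (cons (cons (rc a h e r) (cons (rc a h e l) v)) e))
        (cons w (cons (cons (rc a h e (cons l r)) v) e)) 1 := by
      refine TRC_one ?_ ?_ ?_ ?_
      · simp [TRC_step, one, rc]
      · simp
      · simp only [size_cons, size_nil, one]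
        omega
      · simp only [size_cons]
        omega
    have e1 : TRC_N (cons l r) = 1 + TRC_N l + TRC_N r + 1 := by
      simp only [TRC_N]
      omega
    rw [e1]
    exact TRC_trans (TRC_trans (TRC_trans s1 s2) s3) s4

theorem TRC (hC : Cal) : TRC_stmt := by
  intro a h ha hh hrc t e ht he
  obtain ⟨c, hc⟩ := hrc
  have pt : TRC_pb fun x => (t x).size := hC.bound t ht
  have pe : TRC_pb fun x => (e x).size := hC.bound e he
  have pK : TRC_pb fun x => ((t x).size + (e x).size + c) ^ c :=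
    TRC_pb_pow (TRC_pb_add (TRC_pb_add pt pe) (TRC_pb_const c)) c
  have pP : TRC_pb fun x => (t x).size + 8 + ((t x).size + (e x).size + c) ^ c :=
    TRC_pb_add (TRC_pb_add pt (TRC_pb_const 8)) pK
  have pB : TRC_pb fun x => 2 * (t x).size + (2 + (e x).size +
      ((t x).size + 8 + ((t x).size + (e x).size + c) ^ c) * (t x).size) :=
    TRC_pb_add (TRC_pb_mul (TRC_pb_const 2) pt) (TRC_pb_add (TRC_pb_add (TRC_pb_const 2) pe) (TRC_pb_mul pP pt))
  obtain ⟨C, hCb⟩ := pB
  have hr : FP fun x => cons nil (cons (cons (rc a h (e x) (t x)) nil) (e x)) := by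
    refine hC.whl fst (TRC_step a h) (fun x => cons (cons (cons nil (t x)) nil) (cons nil (e x))) _ (hC.fst _ hC.id)
      (TRC_stepFP hC a h ha hh)
      (hC.cons _ _ (hC.cons _ _ (hC.cons _ _ (hC.const nil) ht) (hC.const nil)) (hC.cons _ _ (hC.const nil) he)) ?_
    refine ⟨C, fun x => ⟨TRC_N (t x), ?_, ?_⟩⟩
    · exact (TRC_N_le (t x)).trans ((Nat.le_add_right _ _).trans (hCb x))
    · obtain ⟨h1, h2, h3⟩ := TRC_run a h (e x) (t x).size (((t x).size + (e x).size + c) ^ c)
        ((t x).size + 8 + ((t x).size + (e x).size + c) ^ c) ((x.size + C) ^ C)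
        (fun t' ht' => (hc (e x) t').trans (Nat.pow_le_pow_left (by omega) c)) le_rfl (t x) nil nil le_rfl (by
          have h9 := hCb x
          beta_reduce at h9
          simp only [size_nil]
          omega)
      exact ⟨h1.symm, rfl, h2, h3⟩
  exact hC.fst _ (hC.fst _ (hC.snd _ hr))

end Pool.Agent.EPT
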